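import Pool.Agent.ZAR.Stmts

/-!
# Squad ZAR, row TPU: transversal families can be pushed
-/

namespace Pool.Agent.ZAR.H65

open MvPowerSeries Pool.Agent.ZAR

variable {K L : Type} [Field K] [Field L] [Algebra K L]

/-- the ring homomorphism behind a substitution -/
theorem hsub {n q : ℕ} {Y : Fin n → MvPowerSeries (Fin q) K}
    (hY : ∀ i, constantCoeff (Y i) = 0) : HasSubst Y :=
  hasSubst_of_constantCoeff_zero hY

theorem bc_const {n q : ℕ} {Y : Fin n → MvPowerSeries (Fin q) K}
    (hY : ∀ i, constantCoeff (Y i) = 0) :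
    ∀ i, constantCoeff (bc K L (Fin q) (Y i)) = 0 := by
  intro i
  rw [constantCoeff_map, hY i, map_zero]

/-- substitution into `x^u` -/
theorem sub_xu {n q : ℕ} (u : Fin n → Fin (n + 1) → L)
    (x : Fin (n + 1) → MvPowerSeries (Fin (n + 1)) K) {Y : Fin (n + 1) → MvPowerSeries (Fin q) K}
    (hY : ∀ i, constantCoeff (Y i) = 0) (i : Fin n) :
    subst (fun j => bc K L (Fin q) (Y j)) (xu u x i) = pf u x Y i := by
  have h1 : HasSubst (fun j => bc K L (Fin q) (Y j)) := hsub (bc_const hY)
  unfold xu pf
  rw [← substAlgHom_apply (R := L) h1, map_sum]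
  refine Finset.sum_congr rfl fun j _ => ?_
  rw [map_mul, substAlgHom_apply, substAlgHom_apply, subst_C]
  congr 1
  rw [map_subst (hsub hY)]

theorem tpu (hTRA : TRAStmt) : TPUStmt := by
  intro K L _ _ _ n q u x I Y hx hSV
  have hY : ∀ i, constantCoeff (Y i) = 0 := by
    obtain ⟨p, p', a, a', s, s', h1, h2, h3, h4⟩ := hSV
    intro i
    rw [← h4 i]
    exact constantCoeff_subst_eq_zero (hsub h3.1) h3.1 (h1.1 i)
  have hpf0 : ∀ i, constantCoeff (pf (L := L) u x Y i) = 0 := by
    intro i
    unfold pf
    rw [map_sum]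
    refine Finset.sum_eq_zero fun j _ => ?_
    rw [map_mul, constantCoeff_map, constantCoeff_subst_eq_zero (hsub hY) hY (hx j), map_zero,
      mul_zero]
  refine ⟨hpf0, ?_⟩
  have hxu0 : ∀ i, constantCoeff (xu (L := L) u x i) = 0 := by
    intro i
    unfold xu
    rw [map_sum]
    refine Finset.sum_eq_zero fun j _ => ?_
    rw [map_mul, constantCoeff_map, hx j, map_zero, mul_zero]
  have hT := hTRA K L (n + 1) q I Y hSV
  have h1 : HasSubst (fun j => bc K L (Fin q) (Y j)) := hsub (bc_const hY)
  have hker : ∀ f ∈ critLocus (xu (L := L) u x) (extI L I),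
      subst (fun j => bc K L (Fin q) (Y j)) f = 0 := by
    intro f hf
    have h2 : critLocus (xu (L := L) u x) (extI L I) ≤
        RingHom.ker (substAlgHom (R := L) h1).toRingHom := by
      unfold critLocus
      rw [Ideal.span_le]
      rintro g (hg | ⟨f', hf', rfl⟩)
      · change (substAlgHom (R := L) h1) g = 0
        rw [substAlgHom_apply]
        exact (hT g hg).1
      · change (substAlgHom (R := L) h1) (jac (xu (L := L) u x) f') = 0
        unfold jac
        rw [AlgHom.map_det]
        apply Matrix.det_eq_zero_of_row_eq_zero 0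
        intro j
        change (substAlgHom (R := L) h1) (pderiv L j
          ((Fin.cons f' (xu (L := L) u x) : Fin (n + 1) → MvPowerSeries (Fin (n + 1)) L) 0)) = 0
        rw [Fin.cons_zero, substAlgHom_apply]
        exact (hT f' hf').2 j
    have h3 := h2 hf
    change (substAlgHom (R := L) h1) f = 0 at h3
    rwa [substAlgHom_apply] at h3
  have h4 : HasSubst (pf (L := L) u x Y) := hsub hpf0
  have h5 : HasSubst (xu (L := L) u x) := hsub hxu0
  intro g hg
  unfold critI proj at hg
  obtain ⟨k, hk⟩ := hg
  have h6 : Ideal.span {g | subst (xu (L := L) u x) g ∈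
      critLocus (xu (L := L) u x) (extI L I)} ≤
        RingHom.ker (substAlgHom (R := L) h4).toRingHom := by
    rw [Ideal.span_le]
    intro g' hg'
    change (substAlgHom (R := L) h4) g' = 0
    rw [substAlgHom_apply]
    have h7 := hker _ hg'
    rw [subst_comp_subst_apply h5 h1] at h7
    have h8 : (fun s => subst (fun j => bc K L (Fin q) (Y j)) (xu (L := L) u x s)) =
        pf (L := L) u x Y := by
      funext i
      exact sub_xu u x hY i
    rwa [h8] at h7
  have h9 := h6 hk
  change (substAlgHom (R := L) h4) (g ^ k) = 0 at h9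
  rw [substAlgHom_apply, subst_pow h4] at h9
  exact eq_zero_of_pow_eq_zero h9

end Pool.Agent.ZAR.H65
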